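import Mathlib

set_option autoImplicit false

/-!
# FPT is not determined by the automorphism group

We give two Fraisse structures on the integers, both in countable relational languages, with the
same automorphism group (the translations, a discrete copy of the integers), such that the first
has the fixed points on type spaces property (FPT) and the second does not.
-/

open FirstOrder FirstOrder.Language FirstOrder.Language.Theory Set

namespace Pool.Agent.Results.MP_970e84_lc.AutNotDetermining

universe u v w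

section Defs

variable (L : FirstOrder.Language.{u, v}) (M : Type w) [L.Structure M]

/-- The automorphism group `Aut(M)`, as a subgroup of the group of all permutations of `M`:
the permutations which are `L`-isomorphisms from `M` to itself. -/
def Aut : Subgroup (Equiv.Perm M) where
  carrier := {σ | ∃ g : M ≃[L] M, g.toEquiv = σ}
  mul_mem' := by
    rintro _ _ ⟨g, rfl⟩ ⟨h, rfl⟩
    exact ⟨g.comp h, rfl⟩
  one_mem' := ⟨FirstOrder.Language.Equiv.refl L M, rfl⟩
  inv_mem' := by
    rintro _ ⟨g, rfl⟩
    exact ⟨g.symm, rfl⟩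

/-- The topology of pointwise convergence on `Aut(M)`: the topology induced from the product
topology on `M → M`, where `M` is discrete. -/
instance autTopology : TopologicalSpace (Aut L M) :=
  TopologicalSpace.induced (fun g : Aut L M => ((g : Equiv.Perm M) : M → M))
    (@Pi.topologicalSpace M (fun _ => M) (fun _ => ⊥))

/-- A Fraisse structure: a countably infinite ultrahomogeneous structure in a countable
relational language. -/
def IsFraisseStructure : Prop :=
  L.IsRelational ∧ Countable L.Symbols ∧ Countable M ∧ Infinite M ∧ L.IsUltrahomogeneous M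

/-- `S_n(M)`: the space of complete `n`-types over `M` (with its Stone topology from Mathlib),
i.e. complete types in `n` variables over the elementary diagram of `M`. -/
abbrev TypeSpace (n : ℕ) : Type _ := (L.elementaryDiagram M).CompleteType (Fin n)

end Defs

section Act

variable {L : FirstOrder.Language.{u, v}} {M : Type w}

/-- The map on symbols which moves the constant of `b` to the constant of `σ b`, and fixes the
symbols of `L` and the `n` variables. -/
def move (L : FirstOrder.Language.{u, v}) {M : Type w} (σ : M → M) (n : ℕ) :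
    L[[M]][[Fin n]] →ᴸ L[[M]][[Fin n]] :=
  (L.lhomWithConstantsMap σ).addConstants (Fin n)

theorem move_comp (σ τ : M → M) (n : ℕ) :
    (move L σ n).comp (move L τ n) = move L (σ ∘ τ) n := by
  refine LHom.funext ?_ ?_
  · funext k f
    rcases f with (f | f) | f
    · rfl
    · cases k with
      | zero => rfl
      | succ k => exact f.elim
    · rfl
  · funext k f
    rcases f with (f | f) | f
    · rfl
    · exact f.elim
    · exact f.elim

theorem move_id (n : ℕ) : (move L (id : M → M) n) = LHom.id _ := by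
  refine LHom.funext ?_ ?_
  · funext k f
    rcases f with (f | f) | f
    · rfl
    · cases k with
      | zero => rfl
      | succ k => exact f.elim
    · rfl
  · funext k f
    rcases f with (f | f) | f
    · rfl
    · exact f.elim
    · exact f.elim

theorem onSentence_comp {L₁ L₂ L₃ : FirstOrder.Language.{u, v}} (φ : L₂ →ᴸ L₃) (ψ : L₁ →ᴸ L₂)
    (χ : L₁.Sentence) : (φ.comp ψ).onSentence χ = φ.onSentence (ψ.onSentence χ) := by
  have := congrFun (LHom.comp_onBoundedFormula (α := Empty) (n := 0) φ ψ) χ
  exact this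

theorem onSentence_id (χ : L.Sentence) : (LHom.id L).onSentence χ = χ := by
  have := congrFun (LHom.id_onBoundedFormula (L := L) (α := Empty) (n := 0)) χ
  exact this

theorem move_perm_inv (σ : Equiv.Perm M) (n : ℕ) (φ : L[[M]][[Fin n]].Sentence) :
    (move L σ n).onSentence ((move L (σ⁻¹ : Equiv.Perm M) n).onSentence φ) = φ := by
  rw [← onSentence_comp, move_comp]
  have : (σ ∘ (σ⁻¹ : Equiv.Perm M) : M → M) = id := by
    funext x; simp
  rw [this, move_id, onSentence_id]

theorem move_inv_perm (σ : Equiv.Perm M) (n : ℕ) (φ : L[[M]][[Fin n]].Sentence) :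
    (move L (σ⁻¹ : Equiv.Perm M) n).onSentence ((move L σ n).onSentence φ) = φ := by
  rw [← onSentence_comp, move_comp]
  have : ((σ⁻¹ : Equiv.Perm M) ∘ σ : M → M) = id := by
    funext x; simp
  rw [this, move_id, onSentence_id]

/-- A type synonym, carrying the reduct structure along a map of languages. -/
def Red {K K' : FirstOrder.Language.{u, v}} (_τ : K →ᴸ K') (N : Type w) : Type w := N

instance redStructure {K K' : FirstOrder.Language.{u, v}} (τ : K →ᴸ K') (N : Type w)
    [K'.Structure N] : K.Structure (Red τ N) := τ.reduct N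

theorem realize_red {K K' : FirstOrder.Language.{u, v}} (τ : K →ᴸ K') (N : Type w)
    [K'.Structure N] (ψ : K.Sentence) : (Red τ N) ⊨ ψ ↔ N ⊨ τ.onSentence ψ := by
  let _ := τ.reduct N
  exact (LHom.realize_onSentence N τ ψ).symm

variable [L.Structure M]

/-- Truth of a sentence with parameters is preserved when parameters are moved by an
automorphism. -/
theorem realize_lhomWithConstantsMap (g : M ≃[L] M) (ψ : L[[M]].Sentence) :
    M ⊨ (L.lhomWithConstantsMap g).onSentence ψ ↔ M ⊨ ψ := by
  rw [← realize_red]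
  let e : M ≃[L[[M]]] (Red (L.lhomWithConstantsMap g) M) :=
    { g.toEquiv with
      map_fun' := by
        intro k f x
        rcases f with f | f
        · exact g.map_fun f x
        · cases k with
          | zero => rfl
          | succ k => exact f.elim
      map_rel' := by
        intro k r x
        rcases r with r | r
        · exact g.map_rel r x
        · exact r.elim }
  exact (StrongHomClass.realize_sentence e ψ).symm

theorem onTheory_move_subset (g : Aut L M) (n : ℕ) (p : TypeSpace L M n) :
    (L[[M]].lhomWithConstants (Fin n)).onTheory (L.elementaryDiagram M) ⊆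
      (move L (g : Equiv.Perm M) n).onTheory p.toTheory := by
  rintro _ ⟨ψ, hψ, rfl⟩
  obtain ⟨h, hh⟩ := g.2
  have hinv : ((g : Equiv.Perm M)⁻¹ : Equiv.Perm M) = h.symm.toEquiv := by
    rw [← hh]; rfl
  have hψ' : (L.lhomWithConstantsMap ((g : Equiv.Perm M)⁻¹ : Equiv.Perm M)).onSentence ψ ∈
      L.elementaryDiagram M := by
    rw [hinv]
    exact (realize_lhomWithConstantsMap h.symm ψ).2 hψ
  refine ⟨(move L ((g : Equiv.Perm M)⁻¹ : Equiv.Perm M) n).onSentence
    ((L[[M]].lhomWithConstants (Fin n)).onSentence ψ), ?_, move_perm_inv _ _ _⟩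
  refine p.subset' ⟨_, hψ', ?_⟩
  rw [← onSentence_comp, ← onSentence_comp]
  rfl

theorem isMaximal_move (σ : Equiv.Perm M) (n : ℕ) (T : L[[M]][[Fin n]].Theory)
    (hT : T.IsMaximal) : ((move L σ n).onTheory T).IsMaximal := by
  refine ⟨?_, ?_⟩
  · obtain ⟨N⟩ := hT.1
    have : Nonempty (Red (move L (σ⁻¹ : Equiv.Perm M) n) N) := N.nonempty'
    have : (Red (move L (σ⁻¹ : Equiv.Perm M) n) N) ⊨ (move L σ n).onTheory T := by
      rw [Theory.model_iff]
      rintro _ ⟨φ, hφ, rfl⟩
      rw [realize_red, move_inv_perm]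
      exact N.is_model.realize_of_mem φ hφ
    exact Theory.Model.isSatisfiable (Red (move L (σ⁻¹ : Equiv.Perm M) n) N)
  · intro φ
    rcases hT.mem_or_not_mem ((move L (σ⁻¹ : Equiv.Perm M) n).onSentence φ) with h | h
    · exact Or.inl ⟨_, h, move_perm_inv _ _ _⟩
    · exact Or.inr ⟨_, h, by
        have := move_perm_inv (L := L) σ n φ.not
        exact this⟩

/-- The action of `Aut(M)` on `S_n(M)` by moving parameters:
`g • p = {φ(x, g b) : φ(x, b) ∈ p}`. -/
def act (g : Aut L M) {n : ℕ} (p : TypeSpace L M n) : TypeSpace L M n where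
  toTheory := (move L (g : Equiv.Perm M) n).onTheory p.toTheory
  subset' := onTheory_move_subset g n p
  isMaximal' := isMaximal_move _ _ _ p.isMaximal'

theorem mem_act_iff (g : Aut L M) {n : ℕ} (p : TypeSpace L M n) (φ : L[[M]][[Fin n]].Sentence) :
    φ ∈ act g p ↔ (move L ((g : Equiv.Perm M)⁻¹ : Equiv.Perm M) n).onSentence φ ∈ p := by
  constructor
  · rintro ⟨ψ, hψ, rfl⟩
    rw [move_inv_perm]
    exact hψ
  · intro h
    exact ⟨_, h, move_perm_inv _ _ _⟩

theorem act_one {n : ℕ} (p : TypeSpace L M n) : act 1 p = p := by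
  refine SetLike.ext fun φ => ?_
  rw [mem_act_iff]
  have : (((1 : Aut L M) : Equiv.Perm M)⁻¹ : Equiv.Perm M) = Equiv.refl M := by
    simp; rfl
  rw [this]
  have h2 : ((Equiv.refl M : Equiv.Perm M) : M → M) = id := rfl
  rw [h2, move_id, onSentence_id]

theorem act_mul (g h : Aut L M) {n : ℕ} (p : TypeSpace L M n) :
    act (g * h) p = act g (act h p) := by
  refine SetLike.ext fun φ => ?_
  rw [mem_act_iff, mem_act_iff, mem_act_iff, ← onSentence_comp, move_comp]
  have : ((((g * h : Aut L M) : Equiv.Perm M)⁻¹ : Equiv.Perm M) : M → M) =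
    ((h : Equiv.Perm M)⁻¹ : Equiv.Perm M) ∘ ((g : Equiv.Perm M)⁻¹ : Equiv.Perm M) := by
    simp [mul_inv_rev]
  rw [this]

/-- A subflow of `S_n(M)`: a nonempty closed `Aut(M)`-invariant subset. -/
def IsSubflow {n : ℕ} (X : Set (TypeSpace L M n)) : Prop :=
  X.Nonempty ∧ IsClosed X ∧ ∀ g : Aut L M, ∀ p ∈ X, act g p ∈ X

variable (L M)

/-- The fixed points on type spaces property: for every `n ≥ 1`, each subflow of `S_n(M)` contains
a fixed point of `Aut(M)`. -/
def FPT : Prop :=
  ∀ n : ℕ, 1 ≤ n → ∀ X : Set (TypeSpace L M n), IsSubflow X → ∃ p ∈ X, ∀ g : Aut L M, act g p = p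

end Act

section Formulas

variable {K : FirstOrder.Language.{0, 0}}

/-- `∀ y, r(x₀, y) → y = x₁`. -/
def th1 (r : K.Relations 2) : K.Formula (Fin 2) :=
  ∀' ((Relations.boundedFormula₂ r (Term.var (Sum.inl 0)) (Term.var (Sum.inr 0))).imp
    (Term.bdEqual (Term.var (Sum.inr 0)) (Term.var (Sum.inl 1))))

theorem realize_th1 (S : Type) [K.Structure S] (r : K.Relations 2) (a b : S) :
    (th1 r).Realize ![a, b] ↔ ∀ y : S, Structure.RelMap r ![a, y] → y = b := by
  simp only [th1, Formula.Realize, BoundedFormula.realize_all, BoundedFormula.realize_imp,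
    BoundedFormula.realize_rel₂, BoundedFormula.realize_bdEqual, Term.realize_var, Sum.elim_inl,
    Sum.elim_inr]
  rfl

/-- `∀ y, r(y, x₀) → y = x₁`. -/
def th2 (r : K.Relations 2) : K.Formula (Fin 2) :=
  ∀' ((Relations.boundedFormula₂ r (Term.var (Sum.inr 0)) (Term.var (Sum.inl 0))).imp
    (Term.bdEqual (Term.var (Sum.inr 0)) (Term.var (Sum.inl 1))))

theorem realize_th2 (S : Type) [K.Structure S] (r : K.Relations 2) (a b : S) :
    (th2 r).Realize ![a, b] ↔ ∀ y : S, Structure.RelMap r ![y, a] → y = b := by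
  simp only [th2, Formula.Realize, BoundedFormula.realize_all, BoundedFormula.realize_imp,
    BoundedFormula.realize_rel₂, BoundedFormula.realize_bdEqual, Term.realize_var, Sum.elim_inl,
    Sum.elim_inr]
  rfl

/-- `r(x₀, x₁)`. -/
def th3 (r : K.Relations 2) : K.Formula (Fin 2) :=
  Relations.formula₂ r (Term.var 0) (Term.var 1)

theorem realize_th3 (S : Type) [K.Structure S] (r : K.Relations 2) (a b : S) :
    (th3 r).Realize ![a, b] ↔ Structure.RelMap r ![a, b] := by
  simp only [th3, Formula.realize_rel₂, Term.realize_var]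
  rfl

/-- `x₀ = x₁`. -/
def th4 : K.Formula (Fin 2) :=
  Term.equal (Term.var 0) (Term.var 1)

theorem realize_th4 (S : Type) [K.Structure S] (a b : S) :
    (th4 (K := K)).Realize ![a, b] ↔ a = b := by
  simp only [th4, Formula.realize_equal, Term.realize_var]
  rfl

/-- `∀ y, (r(y, x₀) ↔ ¬ r(y, x₁))`. -/
def th5 (r : K.Relations 2) : K.Formula (Fin 2) :=
  ∀' ((Relations.boundedFormula₂ r (Term.var (Sum.inr 0)) (Term.var (Sum.inl 0))).iff
    (Relations.boundedFormula₂ r (Term.var (Sum.inr 0)) (Term.var (Sum.inl 1))).not)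

theorem realize_th5 (S : Type) [K.Structure S] (r : K.Relations 2) (a b : S) :
    (th5 r).Realize ![a, b] ↔
      ∀ y : S, (Structure.RelMap r ![y, a] ↔ ¬ Structure.RelMap r ![y, b]) := by
  simp only [th5, Formula.Realize, BoundedFormula.realize_all, BoundedFormula.realize_iff,
    BoundedFormula.realize_rel₂, BoundedFormula.realize_not, Term.realize_var, Sum.elim_inl,
    Sum.elim_inr]
  rfl

end Formulas

section Example

/-- Relation symbols: a binary symbol `shift n` for every integer `n`, and a binary symbol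
`dist j` for every `j : J`. -/
inductive Rel (J : Type) : ℕ → Type
  | shift (n : ℤ) : Rel J 2
  | dist (j : J) : Rel J 2

/-- The relational language with the symbols `Rel J`. -/
def lang (J : Type) : FirstOrder.Language.{0, 0} := ⟨fun _ => Empty, Rel J⟩

/-- The structure on the integers where `shift n` is interpreted as `{(x, y) : y = x + n}` and
`dist j` as `{(x, y) : y - x ∈ A j}`. -/
@[instance_reducible]
def str {J : Type} (A : J → Set ℤ) : (lang J).Structure ℤ where
  funMap := fun f _ => f.elim
  RelMap := fun r v =>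
    match r, v with
    | Rel.shift n, v => v 1 = v 0 + n
    | Rel.dist j, v => v 1 - v 0 ∈ A j

theorem lang_relational (J : Type) : (lang J).IsRelational := fun _ =>
  (inferInstance : IsEmpty Empty)

theorem lang_countable (J : Type) [Countable J] : Countable (lang J).Symbols := by
  have h1 : IsEmpty (Σ l, (lang J).Functions l) := ⟨fun x => x.2.elim⟩
  have h2 : Countable (Σ l, (lang J).Relations l) := by
    have : Function.Surjective
        (fun x : ℤ ⊕ J => (Sum.elim (fun n => ⟨2, Rel.shift n⟩) (fun j => ⟨2, Rel.dist j⟩) x :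
          Σ l, (lang J).Relations l)) := by
      rintro ⟨l, r⟩
      cases r with
      | shift n => exact ⟨Sum.inl n, rfl⟩
      | dist j => exact ⟨Sum.inr j, rfl⟩
    exact this.countable
  exact (inferInstance : Countable ((Σ l, (lang J).Functions l) ⊕ (Σ l, (lang J).Relations l)))

section General

variable {J : Type} (A : J → Set ℤ)

/-- Translation by `k` as an automorphism. -/
def tr (k : ℤ) : @FirstOrder.Language.Equiv (lang J) ℤ ℤ (str A) (str A) :=
  let _ := str A
  { toEquiv := Equiv.addRight k
    map_fun' := fun f _ => f.elim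
    map_rel' := by
      intro m r x
      cases r with
      | shift n =>
        change x 1 + k = x 0 + k + n ↔ x 1 = x 0 + n
        constructor <;> intro h <;> linarith
      | dist j =>
        change x 1 + k - (x 0 + k) ∈ A j ↔ x 1 - x 0 ∈ A j
        rw [add_sub_add_right_eq_sub] }

theorem mem_aut_iff (σ : Equiv.Perm ℤ) :
    σ ∈ @Aut (lang J) ℤ (str A) ↔ ∀ x y, σ y - σ x = y - x := by
  let _ := str A
  constructor
  · rintro ⟨g, rfl⟩ x y
    have h := (g.map_rel (Rel.shift (y - x) : (lang J).Relations 2) ![x, y]).2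
      (by change y = x + (y - x); ring)
    change g y = g x + (y - x) at h
    change g y - g x = y - x
    linarith
  · intro h
    refine ⟨tr A (σ 0), ?_⟩
    ext x
    have := h 0 x
    change x + σ 0 = σ x
    linarith

theorem ultrahomogeneous : @IsUltrahomogeneous (lang J) ℤ (str A) := by
  let _ := str A
  intro S _ f
  by_cases hS : ∃ a : ℤ, a ∈ S
  · obtain ⟨a, ha⟩ := hS
    refine ⟨tr A (f ⟨a, ha⟩ - a), ?_⟩
    ext x
    have h := (f.map_rel (Rel.shift ((x : ℤ) - a) : (lang J).Relations 2) ![⟨a, ha⟩, x]).2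
      (by change (x : ℤ) = a + (x - a); ring)
    change f x = f ⟨a, ha⟩ + (x - a) at h
    change f x = (x : ℤ) + (f ⟨a, ha⟩ - a)
    linarith
  · refine ⟨tr A 0, ?_⟩
    ext x
    exact absurd ⟨x.1, x.2⟩ hS

theorem isFraisse [Countable J] : @IsFraisseStructure (lang J) ℤ (str A) :=
  ⟨lang_relational J, lang_countable J, inferInstance, inferInstance, ultrahomogeneous A⟩

/-- The `n` variables as terms. -/
def vt (J : Type) (n : ℕ) (i : Fin n) : ((lang J)[[ℤ]][[Fin n]]).Term Empty :=
  Constants.term (Sum.inr i : ((lang J)[[ℤ]][[Fin n]]).Constants)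

/-- The parameters as terms. -/
def ct (J : Type) (n : ℕ) (m : ℤ) : ((lang J)[[ℤ]][[Fin n]]).Term Empty :=
  Constants.term (Sum.inl (Sum.inr m) : ((lang J)[[ℤ]][[Fin n]]).Constants)

/-- The sentence `x_i = m`. -/
def eqS (J : Type) (n : ℕ) (i : Fin n) (m : ℤ) : ((lang J)[[ℤ]][[Fin n]]).Sentence :=
  Term.equal (vt J n i) (ct J n m)

/-- The sentence `dist j (x_i, m)`. -/
def distS {J : Type} (j : J) (n : ℕ) (i : Fin n) (m : ℤ) : ((lang J)[[ℤ]][[Fin n]]).Sentence :=
  Relations.formula₂ (Sum.inl (Sum.inl (Rel.dist j)) : ((lang J)[[ℤ]][[Fin n]]).Relations 2)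
    (vt J n i) (ct J n m)

theorem onTerm_vt (J : Type) (σ : ℤ → ℤ) (n : ℕ) (i : Fin n) :
    (move (lang J) σ n).onTerm (vt J n i) = vt J n i := by
  change Term.func _ _ = Term.func _ _
  congr 1
  exact funext fun x => x.elim0

theorem onTerm_ct (J : Type) (σ : ℤ → ℤ) (n : ℕ) (m : ℤ) :
    (move (lang J) σ n).onTerm (ct J n m) = ct J n (σ m) := by
  change Term.func _ _ = Term.func _ _
  congr 1
  exact funext fun x => x.elim0

theorem move_eqS (J : Type) (σ : ℤ → ℤ) (n : ℕ) (i : Fin n) (m : ℤ) :
    (move (lang J) σ n).onSentence (eqS J n i m) = eqS J n i (σ m) := by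
  have h1 : ∀ t : ((lang J)[[ℤ]][[Fin n]]).Term Empty,
    (move (lang J) σ n).onTerm (t.relabel Sum.inl : ((lang J)[[ℤ]][[Fin n]]).Term (Empty ⊕ Fin 0))
      = ((move (lang J) σ n).onTerm t).relabel Sum.inl := by
    intro t
    induction t with
    | var => rfl
    | func f ts ih =>
      simp only [Term.relabel, LHom.onTerm]
      congr 1
      exact funext ih
  unfold eqS
  change BoundedFormula.equal _ _ = BoundedFormula.equal _ _
  rw [h1, h1, onTerm_vt, onTerm_ct]

theorem move_distS {J : Type} (j : J) (σ : ℤ → ℤ) (n : ℕ) (i : Fin n) (m : ℤ) :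
    (move (lang J) σ n).onSentence (distS j n i m) = distS j n i (σ m) := by
  have h1 : ∀ t : ((lang J)[[ℤ]][[Fin n]]).Term Empty,
    (move (lang J) σ n).onTerm (t.relabel Sum.inl : ((lang J)[[ℤ]][[Fin n]]).Term (Empty ⊕ Fin 0))
      = ((move (lang J) σ n).onTerm t).relabel Sum.inl := by
    intro t
    induction t with
    | var => rfl
    | func f ts ih =>
      simp only [Term.relabel, LHom.onTerm]
      congr 1
      exact funext ih
  unfold distS
  change BoundedFormula.rel _ _ = BoundedFormula.rel _ _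
  congr 1
  funext x
  fin_cases x
  · change (move (lang J) σ n).onTerm ((vt J n i).relabel Sum.inl) = (vt J n i).relabel Sum.inl
    rw [h1, onTerm_vt]
  · change (move (lang J) σ n).onTerm ((ct J n m).relabel Sum.inl) = (ct J n (σ m)).relabel Sum.inl
    rw [h1, onTerm_ct]

section Model

/-- The interpretation of the parameter `m` in `N`. -/
def cN (J : Type) (n : ℕ) (N : Type) [((lang J)[[ℤ]][[Fin n]]).Structure N] (m : ℤ) : N :=
  @Structure.funMap ((lang J)[[ℤ]][[Fin n]]) N _ 0 (Sum.inl (Sum.inr m)) default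

/-- The interpretation of the variable `x_i` in `N`. -/
def vN (J : Type) (n : ℕ) (N : Type) [((lang J)[[ℤ]][[Fin n]]).Structure N] (i : Fin n) : N :=
  @Structure.funMap ((lang J)[[ℤ]][[Fin n]]) N _ 0 (Sum.inr i) default

/-- The interpretation of a binary symbol in `N`. -/
def rN (J : Type) (n : ℕ) (N : Type) [((lang J)[[ℤ]][[Fin n]]).Structure N]
    (r : Rel J 2) (a b : N) : Prop :=
  @Structure.RelMap ((lang J)[[ℤ]][[Fin n]]) N _ 2 (Sum.inl (Sum.inl r)) ![a, b]

/-- The `(lang J)[[ℤ]]`-reduct of `N`. -/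
@[instance_reducible]
def strN1 (J : Type) (n : ℕ) (N : Type) [((lang J)[[ℤ]][[Fin n]]).Structure N] :
    ((lang J)[[ℤ]]).Structure N :=
  (((lang J)[[ℤ]]).lhomWithConstants (Fin n)).reduct N

/-- The `lang J`-reduct of `N`. -/
@[instance_reducible]
def strN0 (J : Type) (n : ℕ) (N : Type) [((lang J)[[ℤ]][[Fin n]]).Structure N] :
    (lang J).Structure N :=
  @LHom.reduct _ _ ((lang J).lhomWithConstants ℤ) N (strN1 J n N)

variable {n : ℕ} (N : Type) [((lang J)[[ℤ]][[Fin n]]).Structure N]

/-- Formulas about elements of the base structure transfer to a model of its elementary diagram. -/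
theorem transfer (hN : N ⊨ (((lang J)[[ℤ]]).lhomWithConstants (Fin n)).onTheory
      (@elementaryDiagram (lang J) ℤ (str A))) (φ : (lang J).Formula (Fin 2)) (a b : ℤ) :
    @Formula.Realize (lang J) N (strN0 J n N) _ φ
      ![cN J n N a, cN J n N b] ↔
    @Formula.Realize (lang J) ℤ (str A) _ φ ![a, b] := by
  let _ := str A
  let s1 := strN1 J n N
  let s0 := strN0 J n N
  have e1 : (((lang J)[[ℤ]]).lhomWithConstants (Fin n)).IsExpansionOn N :=
    LHom.isExpansionOn_reduct _ _
  have e0 : ((lang J).lhomWithConstants ℤ).IsExpansionOn N :=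
    LHom.isExpansionOn_reduct _ _
  have : N ⊨ (lang J).elementaryDiagram ℤ := (LHom.onTheory_model _ _).1 hN
  have := (ElementaryEmbedding.ofModelsElementaryDiagram (lang J) ℤ N).map_formula φ ![a, b]
  rw [← this]
  have h2 : ![cN J n N a, cN J n N b] =
      (ElementaryEmbedding.ofModelsElementaryDiagram (lang J) ℤ N) ∘ ![a, b] := by
    funext x
    fin_cases x
    · rfl
    · rfl
  rw [h2]

variable (hN : N ⊨ (((lang J)[[ℤ]]).lhomWithConstants (Fin n)).onTheory
      (@elementaryDiagram (lang J) ℤ (str A)))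
include hN

theorem cN_inj (a b : ℤ) (h : cN J n N a = cN J n N b) : a = b := by
  let _ := str A
  let s0 := strN0 J n N
  have := (realize_th4 (K := lang J) N _ _).symm.trans
    ((transfer A N hN th4 a b).trans (realize_th4 (K := lang J) ℤ a b))
  exact this.1 h

theorem rN_cN (r : Rel J 2) (a b : ℤ) :
    rN J n N r (cN J n N a) (cN J n N b) ↔ (str A).RelMap r ![a, b] := by
  let _ := str A
  let s0 := strN0 J n N
  exact (realize_th3 (K := lang J) N r _ _).symm.trans
    ((transfer A N hN (th3 (K := lang J) r) a b).trans (realize_th3 (K := lang J) ℤ r a b))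

theorem rN_left (m a : ℤ) (b : N) (h : rN J n N (Rel.shift m : Rel J 2) (cN J n N a) b) :
    b = cN J n N (a + m) := by
  let _ := str A
  let s0 := strN0 J n N
  have := (realize_th1 (K := lang J) N (Rel.shift m) _ _).symm.trans
    ((transfer A N hN (th1 (K := lang J) (Rel.shift m)) a (a + m)).trans
      (realize_th1 (K := lang J) ℤ (Rel.shift m) a (a + m)))
  exact this.2 (fun y hy => hy) b h

theorem rN_right (m a : ℤ) (b : N) (h : rN J n N (Rel.shift m : Rel J 2) b (cN J n N a)) :
    b = cN J n N (a - m) := by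
  let _ := str A
  let s0 := strN0 J n N
  have := (realize_th2 (K := lang J) N (Rel.shift m) _ _).symm.trans
    ((transfer A N hN (th2 (K := lang J) (Rel.shift m)) a (a - m)).trans
      (realize_th2 (K := lang J) ℤ (Rel.shift m) a (a - m)))
  refine this.2 (fun y hy => ?_) b h
  change a = y + m at hy
  linarith

open Classical in
/-- Shift the parameters by `k` and fix everything else. -/
noncomputable def sh (J : Type) (n : ℕ) (N : Type) [((lang J)[[ℤ]][[Fin n]]).Structure N]
    (k : ℤ) (a : N) : N :=
  if h : ∃ m, a = cN J n N m then cN J n N (h.choose + k) else a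

theorem sh_cN (k m : ℤ) : sh J n N k (cN J n N m) = cN J n N (m + k) := by
  have h : ∃ m', cN J n N m = cN J n N m' := ⟨m, rfl⟩
  unfold sh
  rw [dif_pos h]
  rw [← cN_inj A N hN _ _ h.choose_spec]

omit hN in
theorem sh_of_not (k : ℤ) (a : N) (h : ¬ ∃ m, a = cN J n N m) : sh J n N k a = a := by
  unfold sh
  rw [dif_neg h]

theorem sh_neg (k : ℤ) (a : N) : sh J n N (-k) (sh J n N k a) = a := by
  by_cases h : ∃ m, a = cN J n N m
  · obtain ⟨m, rfl⟩ := h
    rw [sh_cN A N hN, sh_cN A N hN]
    congr 1
    ring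
  · rw [sh_of_not N k a h, sh_of_not N (-k) a h]

theorem sh_neg' (k : ℤ) (a : N) : sh J n N k (sh J n N (-k) a) = a := by
  have := sh_neg A N hN (-k) a
  rwa [neg_neg] at this

theorem rN_sh (k t : ℤ) (a b : N) :
    rN J n N (Rel.shift t) (sh J n N k a) (sh J n N k b) ↔ rN J n N (Rel.shift t) a b := by
  by_cases ha : ∃ m, a = cN J n N m
  · by_cases hb : ∃ m, b = cN J n N m
    · obtain ⟨m, rfl⟩ := ha
      obtain ⟨m', rfl⟩ := hb
      rw [sh_cN A N hN, sh_cN A N hN, rN_cN A N hN, rN_cN A N hN]
      change m' + k = m + k + t ↔ m' = m + t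
      constructor <;> intro h <;> linarith
    · rw [sh_of_not N k b hb]
      obtain ⟨m, rfl⟩ := ha
      rw [sh_cN A N hN]
      constructor
      · intro h
        exact absurd ⟨_, rN_left A N hN _ _ _ h⟩ hb
      · intro h
        exact absurd ⟨_, rN_left A N hN _ _ _ h⟩ hb
  · rw [sh_of_not N k a ha]
    by_cases hb : ∃ m, b = cN J n N m
    · obtain ⟨m, rfl⟩ := hb
      rw [sh_cN A N hN]
      constructor
      · intro h
        exact absurd ⟨_, rN_right A N hN _ _ _ h⟩ ha
      · intro h
        exact absurd ⟨_, rN_right A N hN _ _ _ h⟩ ha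
    · rw [sh_of_not N k b hb]

end Model

end General

/-- An isomorphism criterion for structures in the language with parameters and variables. -/
theorem realize_iff_of_equiv {J : Type} {n : ℕ} (N N' : Type)
    [((lang J)[[ℤ]][[Fin n]]).Structure N] [((lang J)[[ℤ]][[Fin n]]).Structure N'] (f : N ≃ N')
    (hc : ∀ m, f (cN J n N m) = cN J n N' m) (hv : ∀ i, f (vN J n N i) = vN J n N' i)
    (hr : ∀ r a b, rN J n N' r (f a) (f b) ↔ rN J n N r a b)
    (φ : ((lang J)[[ℤ]][[Fin n]]).Sentence) : N ⊨ φ ↔ N' ⊨ φ := by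
  let e : N ≃[(lang J)[[ℤ]][[Fin n]]] N' :=
    { toEquiv := f
      map_fun' := by
        intro l f' x
        rcases f' with (f' | f') | f'
        · exact f'.elim
        · cases l with
          | zero =>
            have hx : x = default := funext fun i => i.elim0
            have hx' : f.toFun ∘ x = default := funext fun i => i.elim0
            rw [hx', hx]
            exact hc f'
          | succ l => exact f'.elim
        · cases l with
          | zero =>
            have hx : x = default := funext fun i => i.elim0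
            have hx' : f.toFun ∘ x = default := funext fun i => i.elim0
            rw [hx', hx]
            exact hv f'
          | succ l => exact f'.elim
      map_rel' := by
        intro l r x
        rcases r with (r | r) | r
        · have key : ∀ (r : Rel J 2) (x : Fin 2 → N),
              (@Structure.RelMap ((lang J)[[ℤ]][[Fin n]]) N' _ 2 (Sum.inl (Sum.inl r)) (f.toFun ∘ x) ↔
              @Structure.RelMap ((lang J)[[ℤ]][[Fin n]]) N _ 2 (Sum.inl (Sum.inl r)) x) := by
            intro r x
            have hx : x = ![x 0, x 1] := by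
              funext i
              fin_cases i <;> rfl
            have hx' : f.toFun ∘ x = ![f (x 0), f (x 1)] := by
              funext i
              fin_cases i <;> rfl
            rw [hx', hx]
            exact hr r (x 0) (x 1)
          cases r with
          | shift t => exact key (Rel.shift t) x
          | dist j => exact key (Rel.dist j) x
        · exact r.elim
        · exact r.elim }
  exact StrongHomClass.realize_sentence e φ

theorem cN_red {J : Type} {n : ℕ} (N : Type) [((lang J)[[ℤ]][[Fin n]]).Structure N] (σ : ℤ → ℤ)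
    (m : ℤ) : cN J n (Red (move (lang J) σ n) N) m = cN J n N (σ m) := rfl

theorem vN_red {J : Type} {n : ℕ} (N : Type) [((lang J)[[ℤ]][[Fin n]]).Structure N] (σ : ℤ → ℤ)
    (i : Fin n) : vN J n (Red (move (lang J) σ n) N) i = vN J n N i := rfl

theorem rN_red {J : Type} {n : ℕ} (N : Type) [((lang J)[[ℤ]][[Fin n]]).Structure N] (σ : ℤ → ℤ)
    (r : Rel J 2) (a b : N) : rN J n (Red (move (lang J) σ n) N) r a b ↔ rN J n N r a b :=
  Iff.rfl

/-- Truth in a model of a type over `(ℤ; y = x + n)` without realised coordinates is invariant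
under translation of the parameters. -/
theorem realize_move_iff {n : ℕ} (A : Empty → Set ℤ) (N : Type)
    [((lang Empty)[[ℤ]][[Fin n]]).Structure N]
    (hN : N ⊨ (((lang Empty)[[ℤ]]).lhomWithConstants (Fin n)).onTheory
      (@elementaryDiagram (lang Empty) ℤ (str A)))
    (hv : ∀ i m, vN Empty n N i ≠ cN Empty n N m) (k : ℤ) (σ : ℤ → ℤ) (hσ : ∀ x, σ x = x + k)
    (φ : ((lang Empty)[[ℤ]][[Fin n]]).Sentence) :
    N ⊨ (move (lang Empty) σ n).onSentence φ ↔ N ⊨ φ := by
  rw [← realize_red]
  let f : N ≃ (Red (move (lang Empty) σ n) N) :=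
    { toFun := sh Empty n N k
      invFun := sh Empty n N (-k)
      left_inv := fun a => sh_neg A N hN k a
      right_inv := fun a => sh_neg' A N hN k a }
  refine (realize_iff_of_equiv N (Red (move (lang Empty) σ n) N) f ?_ ?_ ?_ φ).symm
  · intro m
    rw [cN_red, hσ]
    exact sh_cN A N hN k m
  · intro i
    rw [vN_red]
    exact sh_of_not N k _ (fun ⟨m, hm⟩ => hv i m hm)
  · intro r a b
    refine (rN_red N σ r _ _).trans ?_
    cases r with
    | shift t => exact rN_sh A N hN k t a b
    | dist j => exact j.elim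

theorem realize_vt {J : Type} {n : ℕ} (N : Type) [((lang J)[[ℤ]][[Fin n]]).Structure N]
    (i : Fin n) (v : Empty → N) : (vt J n i).realize v = vN J n N i :=
  Term.realize_constants

theorem realize_ct {J : Type} {n : ℕ} (N : Type) [((lang J)[[ℤ]][[Fin n]]).Structure N]
    (m : ℤ) (v : Empty → N) : (ct J n m).realize v = cN J n N m :=
  Term.realize_constants

theorem realize_eqS {J : Type} {n : ℕ} (N : Type) [((lang J)[[ℤ]][[Fin n]]).Structure N]
    (i : Fin n) (m : ℤ) : N ⊨ eqS J n i m ↔ vN J n N i = cN J n N m := by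
  unfold eqS Sentence.Realize
  rw [Formula.realize_equal, realize_vt, realize_ct]

theorem realize_distS {J : Type} {n : ℕ} (N : Type) [((lang J)[[ℤ]][[Fin n]]).Structure N]
    (j : J) (i : Fin n) (m : ℤ) :
    N ⊨ distS j n i m ↔ rN J n N (Rel.dist j) (vN J n N i) (cN J n N m) := by
  unfold distS Sentence.Realize
  refine Formula.realize_rel₂.trans ?_
  rw [realize_vt, realize_ct]
  rfl

theorem mem_iff_realize {L : FirstOrder.Language.{0, 0}} {M : Type} [L.Structure M] {n : ℕ}
    (p : TypeSpace L M n) (N : Type) [L[[M]][[Fin n]].Structure N] [Nonempty N]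
    (hN : N ⊨ p.toTheory) (φ : L[[M]][[Fin n]].Sentence) : φ ∈ p ↔ N ⊨ φ :=
  (p.isMaximal.mem_iff_models φ).trans (p.isMaximal.isComplete.realize_sentence_iff φ N).symm

/-- The structure `(ℤ; y = x + n (n ∈ ℤ))` has FPT. -/
theorem fpt_shift (A : Empty → Set ℤ) : @FPT (lang Empty) ℤ (str A) := by
  let _ := str A
  intro n _ X hX
  obtain ⟨⟨p₀, hp₀⟩, hcl, hinv⟩ := hX
  -- translations
  have htr : ∀ k : ℤ, ∃ g : Aut (lang Empty) ℤ,
      (((g : Equiv.Perm ℤ)⁻¹ : Equiv.Perm ℤ) : ℤ → ℤ) = (fun x => x - k) := by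
    intro k
    exact ⟨⟨(tr A k).toEquiv, ⟨tr A k, rfl⟩⟩, rfl⟩
  -- a type in `X` without realised coordinates
  have hmain : (X ∩ ⋂ im : Fin n × ℤ,
      {p : TypeSpace (lang Empty) ℤ n | (eqS Empty n im.1 im.2).not ∈ p}).Nonempty := by
    refine IsCompact.inter_iInter_nonempty hcl.isCompact _ ?_ ?_
    · intro im
      exact CompleteType.isClosed_typesWith _
    · intro u
      obtain ⟨N₀⟩ := p₀.isMaximal.1
      have hne : Nonempty N₀ := N₀.nonempty'
      have hmodel : N₀ ⊨ p₀.toTheory := N₀.is_model
      have hdiag : N₀ ⊨ (((lang Empty)[[ℤ]]).lhomWithConstants (Fin n)).onTheory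
          ((lang Empty).elementaryDiagram ℤ) := hmodel.mono p₀.subset'
      have hfin : (⋃ im ∈ u, {k : ℤ | vN Empty n N₀ im.1 = cN Empty n N₀ (im.2 - k)}).Finite := by
        refine Set.Finite.biUnion u.finite_toSet fun im _ => ?_
        refine Set.Subsingleton.finite fun k hk k' hk' => ?_
        have h1 : cN Empty n N₀ (im.2 - k) = cN Empty n N₀ (im.2 - k') :=
          (show vN Empty n N₀ im.1 = _ from hk).symm.trans hk'
        have h2 := cN_inj A N₀ hdiag _ _ h1
        linarith
      obtain ⟨k, hk⟩ := hfin.infinite_compl.nonempty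
      obtain ⟨g, hg⟩ := htr k
      refine ⟨act g p₀, hinv g p₀ hp₀, ?_⟩
      rw [Set.mem_iInter₂]
      intro im him
      change (eqS Empty n im.1 im.2).not ∈ act g p₀
      rw [mem_act_iff, hg]
      change ((move (lang Empty) (fun x : ℤ => x - k) n).onSentence
        (eqS Empty n im.1 im.2)).not ∈ p₀
      rw [move_eqS, mem_iff_realize p₀ N₀ hmodel]
      intro hcon
      apply hk
      rw [Set.mem_iUnion₂]
      exact ⟨im, him, (realize_eqS (J := Empty) N₀ im.1 (im.2 - k)).1 hcon⟩
  obtain ⟨p, hpX, hp⟩ := hmain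
  refine ⟨p, hpX, fun g => ?_⟩
  obtain ⟨N⟩ := p.isMaximal.1
  have hne : Nonempty N := N.nonempty'
  have hmodel : N ⊨ p.toTheory := N.is_model
  have hdiag : N ⊨ (((lang Empty)[[ℤ]]).lhomWithConstants (Fin n)).onTheory
      ((lang Empty).elementaryDiagram ℤ) := hmodel.mono p.subset'
  have hv : ∀ i m, vN Empty n N i ≠ cN Empty n N m := by
    intro i m h
    have h1 : (eqS Empty n i m).not ∈ p := by
      have := Set.mem_iInter.1 hp (i, m)
      exact this
    rw [mem_iff_realize p N hmodel] at h1
    exact h1 ((realize_eqS (J := Empty) N i m).2 h)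
  refine SetLike.ext fun φ => ?_
  rw [mem_act_iff, mem_iff_realize p N hmodel, mem_iff_realize p N hmodel]
  have hg' : ∀ x y, ((g : Equiv.Perm ℤ)⁻¹ : Equiv.Perm ℤ) y -
      ((g : Equiv.Perm ℤ)⁻¹ : Equiv.Perm ℤ) x = y - x :=
    (mem_aut_iff A _).1 (g⁻¹).2
  refine realize_move_iff A N hdiag hv (((g : Equiv.Perm ℤ)⁻¹ : Equiv.Perm ℤ) 0) _ ?_ φ
  intro x
  have := hg' 0 x
  linarith

/-- The structure `(ℤ; y = x + n (n ∈ ℤ), y - x even)` does not have FPT. -/
theorem not_fpt_parity : ¬ @FPT (lang Unit) ℤ (str (fun _ => {x : ℤ | Even x})) := by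
  let A : Unit → Set ℤ := fun _ => {x : ℤ | Even x}
  let _ := str A
  intro h
  change FPT (lang Unit) ℤ at h
  have hne : (Set.univ : Set (TypeSpace (lang Unit) ℤ 1)).Nonempty := by
    rw [← nonempty_iff_univ_nonempty]
    refine CompleteType.nonempty_iff.2 ?_
    exact (completeTheory.isMaximal ((lang Unit)[[ℤ]]) ℤ).1
  obtain ⟨p, -, hp⟩ := h 1 le_rfl Set.univ ⟨hne, isClosed_univ, fun _ _ _ => Set.mem_univ _⟩
  · obtain ⟨N⟩ := p.isMaximal.1
    have hne : Nonempty N := N.nonempty'
    have hmodel : N ⊨ p.toTheory := N.is_model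
    have hdiag : N ⊨ (((lang Unit)[[ℤ]]).lhomWithConstants (Fin 1)).onTheory
        ((lang Unit).elementaryDiagram ℤ) := hmodel.mono p.subset'
    let g : Aut (lang Unit) ℤ := ⟨(tr A (-1)).toEquiv, ⟨tr A (-1), rfl⟩⟩
    have hg : (((g : Equiv.Perm ℤ)⁻¹ : Equiv.Perm ℤ) : ℤ → ℤ) = (fun x => x - (-1)) := rfl
    have h1 : distS () 1 0 0 ∈ act g p ↔ distS () 1 0 (0 - (-1)) ∈ p := by
      rw [mem_act_iff, hg, move_distS]
    rw [hp g, mem_iff_realize p N hmodel, mem_iff_realize p N hmodel, realize_distS,
      realize_distS] at h1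
    let s0 := strN0 Unit 1 N
    have h2 := (realize_th5 (K := lang Unit) N (Rel.dist ()) _ _).symm.trans
      ((transfer A N hdiag (th5 (K := lang Unit) (Rel.dist ())) 0 1).trans
      (realize_th5 (K := lang Unit) ℤ (Rel.dist ()) 0 1))
    have h3 := h2.2 (fun y => ?_) (vN Unit 1 N 0)
    · have h4 : rN Unit 1 N (Rel.dist ()) (vN Unit 1 N 0) (cN Unit 1 N 0) ↔
          ¬ rN Unit 1 N (Rel.dist ()) (vN Unit 1 N 0) (cN Unit 1 N (0 - (-1))) := h3
      rw [h1] at h4
      exact iff_not_self h4
    · change Even (0 - y) ↔ ¬ Even (1 - y)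
      rw [Int.even_sub, Int.even_sub]
      simp

theorem aut_eq {J J' : Type} (A : J → Set ℤ) (A' : J' → Set ℤ) :
    @Aut (lang J) ℤ (str A) = @Aut (lang J') ℤ (str A') := by
  ext σ
  rw [mem_aut_iff, mem_aut_iff]

end Example

/-- **FPT is not determined by the automorphism group.** There are Fraisse structures `M` and `M'`
(in possibly different countable relational languages) such that `Aut(M)` and `Aut(M')` are
isomorphic as topological groups, `M` has FPT and `M'` does not have FPT. -/
theorem result : ∃ (L L' : FirstOrder.Language.{0, 0}) (M M' : Type)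
    (_ : L.Structure M) (_ : L'.Structure M'),
    IsFraisseStructure L M ∧ IsFraisseStructure L' M' ∧
    (∃ e : Aut L M ≃* Aut L' M', Continuous e ∧ Continuous e.symm) ∧
    FPT L M ∧ ¬ FPT L' M' := by
  let A : Empty → Set ℤ := fun _ => ∅
  let A' : Unit → Set ℤ := fun _ => {x : ℤ | Even x}
  let s := str A
  let s' := str A'
  refine ⟨lang Empty, lang Unit, ℤ, ℤ, s, s', isFraisse A, isFraisse A', ?_, fpt_shift A,
    not_fpt_parity⟩
  have h : @Aut (lang Empty) ℤ s = @Aut (lang Unit) ℤ s' := aut_eq A A'
  refine ⟨MulEquiv.subgroupCongr h, ?_, ?_⟩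
  · exact continuous_induced_rng.2 continuous_induced_dom
  · exact continuous_induced_rng.2 continuous_induced_dom

end Pool.Agent.Results.MP_970e84_lc.AutNotDetermining
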